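import Mathlib
import Pool.Agent.Helper23.KS.Daykin

set_option autoImplicit false

/-!
# A four functions theorem for midpoints on `ℤ^n`

If `f x * g y ≤ h ⌊(x+y)/2⌋ * k ⌈(x+y)/2⌉` for all `x, y : Fin n → ℤ` (rounding coordinatewise)
then `(∑ f) * (∑ g) ≤ (∑ h) * (∑ k)`.
-/

namespace Pool.Agent.Helper80.KS

open scoped ENNReal

theorem add_le_of_mul_le {x M e e' : ℝ≥0∞} (h : x * M ≤ e * e') (hx : e' < x) (hM : e' < M) :
    x + M ≤ e + e' := by
  have he' : e' ≠ ∞ := ne_top_of_lt hx
  by_cases he : e = ∞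
  · simp [he]
  have hx0 : x ≠ 0 := (lt_of_le_of_lt (zero_le) hx).ne'
  have hM0 : M ≠ 0 := (lt_of_le_of_lt (zero_le) hM).ne'
  have hee : e * e' ≠ ∞ := ENNReal.mul_ne_top he he'
  have hxM : x * M ≠ ∞ := ne_top_of_le_ne_top hee h
  have hxt : x ≠ ∞ := by
    rintro rfl
    exact hxM (ENNReal.top_mul hM0)
  have hMt : M ≠ ∞ := by
    rintro rfl
    exact hxM (ENNReal.mul_top hx0)
  lift x to NNReal using hxt
  lift M to NNReal using hMt
  lift e to NNReal using he
  lift e' to NNReal using he'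
  norm_cast at *
  have h' : (x : ℝ) * M ≤ e * e' := by exact_mod_cast h
  have hx' : (e' : ℝ) < x := by exact_mod_cast hx
  have hM' : (e' : ℝ) < M := by exact_mod_cast hM
  have h0 : (0 : ℝ) ≤ e' := e'.2
  have hexM : (e' : ℝ) * (x + M) ≤ e' * (e + e') := by nlinarith
  have hpos : (0 : ℝ) < e' := by
    rcases h0.lt_or_eq with h1 | h1
    · exact h1
    · exfalso
      rw [← h1] at h' hx' hM'
      nlinarith
  have : (x : ℝ) + M ≤ e + e' := le_of_mul_le_mul_left hexM hpos
  exact_mod_cast this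

/-- The one dimensional pigeonhole. -/
theorem seq_bound (a : ℤ → ℝ≥0∞) (e : ℕ → ℝ≥0∞) (h0 : ∀ i, a i ≤ e 0)
    (h1 : ∀ (i : ℤ) (d : ℕ), a i * a (i + (d + 1 : ℕ)) ≤ e d * e (d + 1)) :
    ∀ (t : ℕ) (l : ℤ),
      ∑ j ∈ Finset.range t, a (l + (j : ℤ)) ≤ ∑ d ∈ Finset.range t, e d := by
  intro t
  induction t using Nat.strong_induction_on with
  | _ t ih =>
    intro l
    rcases t with _ | _ | t
    · simp
    · simpa using h0 l
    · by_cases hl : a l ≤ e (t + 1)
      · rw [Finset.sum_range_succ', Finset.sum_range_succ e]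
        have := ih (t + 1) (by omega) (l + 1)
        refine add_le_add ?_ (by simpa using hl)
        refine le_trans (le_of_eq ?_) this
        refine Finset.sum_congr rfl fun j _ => ?_
        congr 1
        push_cast
        ring
      by_cases hr : a (l + (t + 1 : ℕ)) ≤ e (t + 1)
      · rw [Finset.sum_range_succ, Finset.sum_range_succ e]
        exact add_le_add (ih (t + 1) (by omega) l) hr
      push Not at hl hr
      have hk := add_le_of_mul_le (h1 l t) hl hr
      rw [Finset.sum_range_succ, Finset.sum_range_succ', Finset.sum_range_succ e,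
        Finset.sum_range_succ e]
      have := ih t (by omega) (l + 1)
      have h2 : ∑ j ∈ Finset.range t, a (l + ((j + 1 : ℕ) : ℤ)) ≤ ∑ d ∈ Finset.range t, e d := by
        refine le_trans (le_of_eq ?_) this
        refine Finset.sum_congr rfl fun j _ => ?_
        congr 1
        push_cast
        ring
      calc (∑ j ∈ Finset.range t, a (l + ((j + 1 : ℕ) : ℤ))) + a (l + ((0 : ℕ) : ℤ))
            + a (l + ((t + 1 : ℕ) : ℤ))
          = (∑ j ∈ Finset.range t, a (l + ((j + 1 : ℕ) : ℤ))) + (a l + a (l + ((t + 1 : ℕ) : ℤ))) := by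
            rw [add_assoc]; simp
        _ ≤ (∑ d ∈ Finset.range t, e d) + (e t + e (t + 1)) := add_le_add h2 hk
        _ = _ := by rw [add_assoc]

theorem tsum_bound (a : ℤ → ℝ≥0∞) (e : ℕ → ℝ≥0∞) (h0 : ∀ i, a i ≤ e 0)
    (h1 : ∀ (i : ℤ) (d : ℕ), a i * a (i + (d + 1 : ℕ)) ≤ e d * e (d + 1)) :
    ∑' i, a i ≤ ∑' d, e d := by
  rw [ENNReal.tsum_eq_iSup_sum]
  refine iSup_le fun S => ?_
  obtain ⟨R, hR⟩ : ∃ R : ℕ, ∀ i ∈ S, |i| < R := by
    refine ⟨(S.sup fun i => i.natAbs) + 1, fun i hi => ?_⟩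
    have : i.natAbs ≤ S.sup fun i => i.natAbs := Finset.le_sup (f := fun i : ℤ => i.natAbs) hi
    push_cast
    rw [Int.abs_eq_natAbs]
    exact_mod_cast Nat.lt_succ_of_le this
  have hsub : S ⊆ (Finset.range (2 * R)).image (fun j : ℕ => -(R : ℤ) + (j : ℤ)) := by
    intro i hi
    have := hR i hi
    rw [abs_lt] at this
    rw [Finset.mem_image]
    refine ⟨(i + R).toNat, ?_, ?_⟩
    · rw [Finset.mem_range]; omega
    · omega
  calc ∑ i ∈ S, a i ≤ ∑ i ∈ (Finset.range (2 * R)).image (fun j : ℕ => -(R : ℤ) + (j : ℤ)), a i :=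
        Finset.sum_le_sum_of_subset hsub
    _ = ∑ j ∈ Finset.range (2 * R), a (-(R : ℤ) + (j : ℤ)) := by
        rw [Finset.sum_image]
        intro x _ y _ hxy
        have : (x : ℤ) = y := by simpa using hxy
        exact_mod_cast this
    _ ≤ ∑ d ∈ Finset.range (2 * R), e d := seq_bound a e h0 h1 _ _
    _ ≤ ∑' d, e d := ENNReal.sum_le_tsum _

/-- The zigzag enumeration of `ℤ` around `c / 2`. -/
def zz (c : ℤ) (d : ℕ) : ℤ := if (c + d) % 2 = 0 then (c + d) / 2 else (c - d) / 2

theorem zz_injective (c : ℤ) : Function.Injective (zz c) := by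
  intro d d' h
  unfold zz at h
  split_ifs at h <;> omega

theorem conv_bound (f g h k : ℤ → ℝ≥0∞)
    (H : ∀ x y, f x * g y ≤ h ((x + y) / 2) * k ((x + y + 1) / 2)) (c : ℤ) :
    ∑' i, f i * g (c - i) ≤ ∑' j, h j * k (c - j) := by
  have key : ∑' i, f i * g (c - i) ≤ ∑' d, (fun j => h j * k (c - j)) (zz c d) := by
    refine tsum_bound _ _ (fun i => ?_) (fun i d => ?_)
    · refine le_trans (H i (c - i)) (le_of_eq ?_)
      have e1 : (i + (c - i)) / 2 = zz c 0 := by unfold zz; split_ifs <;> (push_cast; omega)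
      have e2 : (i + (c - i) + 1) / 2 = c - zz c 0 := by
        unfold zz; split_ifs <;> (push_cast; omega)
      rw [e1, e2]
    · have h1 := H i (c - (i + (d + 1 : ℕ)))
      have h2 := H (i + (d + 1 : ℕ)) (c - i)
      have h3 := mul_le_mul' h1 h2
      calc f i * g (c - i) * (f (i + (d + 1 : ℕ)) * g (c - (i + (d + 1 : ℕ))))
          = f i * g (c - (i + (d + 1 : ℕ))) * (f (i + (d + 1 : ℕ)) * g (c - i)) := by ring
        _ ≤ _ := h3
        _ = (h (zz c d) * k (c - zz c d)) * (h (zz c (d + 1)) * k (c - zz c (d + 1))) := by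
            by_cases hc : (c + d) % 2 = 0
            · have e1 : (i + (c - (i + (d + 1 : ℕ)))) / 2 = zz c (d + 1) := by
                unfold zz; split_ifs <;> (push_cast at *; omega)
              have e2 : (i + (c - (i + (d + 1 : ℕ))) + 1) / 2 = c - zz c d := by
                unfold zz; split_ifs <;> (push_cast at *; omega)
              have e3 : (i + (d + 1 : ℕ) + (c - i)) / 2 = zz c d := by
                unfold zz; split_ifs <;> (push_cast at *; omega)
              have e4 : (i + (d + 1 : ℕ) + (c - i) + 1) / 2 = c - zz c (d + 1) := by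
                unfold zz; split_ifs <;> (push_cast at *; omega)
              rw [e1, e2, e3, e4]
              ring
            · have e1 : (i + (c - (i + (d + 1 : ℕ)))) / 2 = zz c d := by
                unfold zz; split_ifs <;> (push_cast at *; omega)
              have e2 : (i + (c - (i + (d + 1 : ℕ))) + 1) / 2 = c - zz c (d + 1) := by
                unfold zz; split_ifs <;> (push_cast at *; omega)
              have e3 : (i + (d + 1 : ℕ) + (c - i)) / 2 = zz c (d + 1) := by
                unfold zz; split_ifs <;> (push_cast at *; omega)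
              have e4 : (i + (d + 1 : ℕ) + (c - i) + 1) / 2 = c - zz c d := by
                unfold zz; split_ifs <;> (push_cast at *; omega)
              rw [e1, e2, e3, e4]
              ring
  refine key.trans ?_
  exact ENNReal.tsum_comp_le_tsum_of_injective (zz_injective c) _

/-- The equivalence `(c, i) ↦ (i, c - i)`. -/
def sumEquiv : ℤ × ℤ ≃ ℤ × ℤ where
  toFun p := (p.2, p.1 - p.2)
  invFun p := (p.1 + p.2, p.1)
  left_inv p := by ext <;> simp
  right_inv p := by ext <;> simp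

theorem tsum_mul_tsum (f g : ℤ → ℝ≥0∞) :
    (∑' x, f x) * (∑' y, g y) = ∑' c, ∑' i, f i * g (c - i) := by
  rw [← ENNReal.tsum_prod (f := fun c i => f i * g (c - i)),
    ← ENNReal.tsum_mul_right]
  simp_rw [← ENNReal.tsum_mul_left]
  rw [← ENNReal.tsum_prod (f := fun x y => f x * g y),
    ← sumEquiv.tsum_eq (fun p : ℤ × ℤ => f p.1 * g p.2)]
  rfl

/-- The one dimensional four functions theorem for midpoints. -/
theorem four_mid_one (f g h k : ℤ → ℝ≥0∞)
    (H : ∀ x y, f x * g y ≤ h ((x + y) / 2) * k ((x + y + 1) / 2)) :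
    (∑' x, f x) * (∑' y, g y) ≤ (∑' x, h x) * (∑' y, k y) := by
  rw [tsum_mul_tsum, tsum_mul_tsum]
  exact ENNReal.tsum_le_tsum fun c => conv_bound f g h k H c

theorem tsum_cons {n : ℕ} (f : (Fin (n + 1) → ℤ) → ℝ≥0∞) :
    ∑' x, f x = ∑' a : ℤ, ∑' y : Fin n → ℤ, f (Fin.cons a y) := by
  rw [← ENNReal.tsum_prod (f := fun a (y : Fin n → ℤ) => f (Fin.cons a y))]
  rw [← (Fin.consEquiv (fun _ => ℤ)).tsum_eq f]
  rfl

/-- The four functions theorem for midpoints on `ℤ^n`. -/
theorem four_mid : ∀ (n : ℕ) (f g h k : (Fin n → ℤ) → ℝ≥0∞),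
    (∀ x y, f x * g y ≤ h (fun i => (x i + y i) / 2) * k (fun i => (x i + y i + 1) / 2)) →
    (∑' x, f x) * (∑' y, g y) ≤ (∑' x, h x) * (∑' y, k y) := by
  intro n
  induction n with
  | zero =>
    intro f g h k H
    have e : ∀ u : (Fin 0 → ℤ) → ℝ≥0∞, ∑' x, u x = u default := fun u => by
      rw [tsum_eq_single default]
      intro b hb
      exact absurd (Subsingleton.elim b default) hb
    rw [e, e, e, e]
    have := H default default
    exact this
  | succ n ih =>
    intro f g h k H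
    rw [tsum_cons f, tsum_cons g, tsum_cons h, tsum_cons k]
    refine four_mid_one _ _ _ _ fun a b => ?_
    refine ih _ _ _ _ fun x y => ?_
    refine (H (Fin.cons a x) (Fin.cons b y)).trans (le_of_eq ?_)
    congr 1
    · congr 1
      ext i
      refine Fin.cases ?_ (fun j => ?_) i <;> simp
    · congr 1
      ext i
      refine Fin.cases ?_ (fun j => ?_) i <;> simp

/-- The midpoint inequality for finite sets of integer vectors. -/
theorem card_mid {n : ℕ} (A B C D : Finset (Fin n → ℤ))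
    (hC : ∀ x ∈ A, ∀ y ∈ B, (fun i => (x i + y i) / 2) ∈ C)
    (hD : ∀ x ∈ A, ∀ y ∈ B, (fun i => (x i + y i + 1) / 2) ∈ D) :
    A.card * B.card ≤ C.card * D.card := by
  classical
  have e : ∀ S : Finset (Fin n → ℤ), ∑' x, (if x ∈ S then (1 : ℝ≥0∞) else 0) = S.card := by
    intro S
    rw [tsum_eq_sum (s := S) (fun b hb => by simp [hb])]
    simp
  have h := four_mid n (fun x => if x ∈ A then 1 else 0) (fun x => if x ∈ B then 1 else 0)
    (fun x => if x ∈ C then 1 else 0) (fun x => if x ∈ D then 1 else 0) (by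
      intro x y
      by_cases hx : x ∈ A
      · by_cases hy : y ∈ B
        · simp [hx, hy, hC x hx y hy, hD x hx y hy]
        · simp [hy]
      · simp [hx])
  rw [e, e, e, e] at h
  exact_mod_cast h

open Pool.Agent.Helper23.KS in
/-- The midpoint inequality for the uniform measure on the order preserving maps. -/
theorem pr_mid {n : ℕ} (r : Fin n → Fin n → Prop) (N : ℕ) (p q s t : (Fin n → ℤ) → Prop)
    (h1 : ∀ f ∈ Om r N, ∀ g ∈ Om r N, p f → q g → s (fun i => (f i + g i) / 2))
    (h2 : ∀ f ∈ Om r N, ∀ g ∈ Om r N, p f → q g → t (fun i => (f i + g i + 1) / 2)) :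
    pr (Om r N) p * pr (Om r N) q ≤ pr (Om r N) s * pr (Om r N) t := by
  classical
  unfold pr
  rw [div_mul_div_comm, div_mul_div_comm]
  refine div_le_div_of_nonneg_right ?_ (by positivity)
  norm_cast
  refine card_mid _ _ _ _ ?_ ?_
  · intro f hf g hg
    rw [Finset.mem_filter] at hf hg ⊢
    refine ⟨?_, h1 f hf.1 g hg.1 hf.2 hg.2⟩
    rw [mem_Om] at hf hg ⊢
    obtain ⟨⟨hf1, hf2⟩, hf3⟩ := hf
    obtain ⟨⟨hg1, hg2⟩, hg3⟩ := hg
    refine ⟨fun i => ?_, fun i j hij => ?_⟩
    · have h1 := hf1 i; have h2 := hg1 i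
      show 0 ≤ (f i + g i) / 2 ∧ (f i + g i) / 2 < N
      omega
    · have h1 := hf2 i j hij; have h2 := hg2 i j hij
      show (f i + g i) / 2 ≤ (f j + g j) / 2
      omega
  · intro f hf g hg
    rw [Finset.mem_filter] at hf hg ⊢
    refine ⟨?_, h2 f hf.1 g hg.1 hf.2 hg.2⟩
    rw [mem_Om] at hf hg ⊢
    obtain ⟨⟨hf1, hf2⟩, hf3⟩ := hf
    obtain ⟨⟨hg1, hg2⟩, hg3⟩ := hg
    refine ⟨fun i => ?_, fun i j hij => ?_⟩
    · have h1 := hf1 i; have h2 := hg1 i
      show 0 ≤ (f i + g i + 1) / 2 ∧ (f i + g i + 1) / 2 < N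
      omega
    · have h1 := hf2 i j hij; have h2 := hg2 i j hij
      show (f i + g i + 1) / 2 ≤ (f j + g j + 1) / 2
      omega

end Pool.Agent.Helper80.KS
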